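import Pool.Agent.helper37.NF.Spec

set_option autoImplicit false

namespace Pool.Agent.helper37.NF

open Finset Pool.Agent.NK

theorem REC : REC_stmt := by
  intro i
  unfold cc rho
  have h1 := Nat.choose_mul_factorial_mul_factorial (show i ≤ 4 * i by omega)
  have h2 := Nat.choose_mul_factorial_mul_factorial (show i + 1 ≤ 4 * (i + 1) by omega)
  rw [show 4 * i - i = 3 * i by omega] at h1
  rw [show 4 * (i + 1) - (i + 1) = 3 * i + 2 + 1 by omega, show 4 * (i + 1) = 4 * i + 3 + 1 by ring] at h2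
  rw [show 4 * (i + 1) = 4 * i + 3 + 1 by ring]
  simp only [Nat.factorial_succ] at h2
  rw [← h1] at h2
  have h3 : (0 : ℝ) < (i.factorial : ℝ) * ((3 * i).factorial : ℝ) := by positivity
  have h4 : (0 : ℝ) < (i : ℝ) + 1 := by positivity
  have h5 : (((4 * i + 3 + 1).choose (i + 1) : ℕ) : ℝ) * (((i : ℝ) + 1) * i.factorial) *
      ((3 * i + 2 + 1) * ((3 * i + 1 + 1) * ((3 * i + 1) * ((3 * i).factorial : ℝ)))) =
      (4 * i + 3 + 1) * ((4 * i + 2 + 1) * ((4 * i + 1 + 1) * ((4 * i + 1) *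
        ((((4 * i).choose i : ℕ) : ℝ) * i.factorial * ((3 * i).factorial : ℝ))))) := by
    exact_mod_cast h2
  rw [div_mul_eq_mul_div, eq_div_iff (by positivity)]
  apply mul_right_cancel₀ h3.ne'
  apply mul_right_cancel₀ h4.ne'
  linear_combination h5

end Pool.Agent.helper37.NF
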